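import Pool.Agent.Y887.QK.Stm

/-!
Job T2-CORE of helper887: the quantitative core of the sieve on the modular hyperbola
(after `Pool.Agent.Y887.QF.SvE`).
-/

set_option autoImplicit false

namespace Pool.Agent.Y394.T2

open Finset Pool.Agent.Y887.QKS

lemma mem_pz {z p : ℕ} : p ∈ pz z ↔ p ≤ z ∧ p.Prime := by
  unfold pz
  rw [mem_filter, mem_Icc]
  constructor
  · rintro ⟨⟨h1, h2⟩, h3⟩
    exact ⟨h2, h3⟩
  · rintro ⟨h1, h2⟩
    exact ⟨⟨h2.one_lt.le, h1⟩, h2⟩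

/-- the number of sets of primes with bounded product -/
lemma card_lev (P : Finset ℕ) (hP : ∀ p ∈ P, p.Prime) (B : ℕ) :
    (P.powerset.filter (fun U => ∏ p ∈ U, p ≤ B)).card ≤ B := by
  have h : (P.powerset.filter (fun U => ∏ p ∈ U, p ≤ B)).card ≤ (Icc 1 B).card := by
    apply card_le_card_of_injOn (fun U => ∏ p ∈ U, p)
    · intro U hU
      have hU' := mem_filter.1 (mem_coe.1 hU)
      exact mem_coe.2 (mem_Icc.2
        ⟨prod_pos fun p hp => (hP p (mem_powerset.1 hU'.1 hp)).pos, hU'.2⟩)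
    · intro U hU U' hU' h
      have hU1 := mem_filter.1 (mem_coe.1 hU)
      have hU2 := mem_filter.1 (mem_coe.1 hU')
      have h1 := Nat.primeFactors_prod (s := U) fun p hp => hP p (mem_powerset.1 hU1.1 hp)
      have h2 := Nat.primeFactors_prod (s := U') fun p hp => hP p (mem_powerset.1 hU2.1 hp)
      have h3 : ∏ p ∈ U, p = ∏ p ∈ U', p := h
      rw [← h1, ← h2, h3]
  rwa [Nat.card_Icc, Nat.add_sub_cancel] at h

lemma few_large {n ℓ s Ex : ℕ} (hn : n ≠ 0) (hX : n ≤ ℓ ^ Ex) (h3 : ℓ < (2 * s) ^ 16)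
    (h4 : 2 ^ 16 ≤ s) : (n.primeFactors.filter (fun q => s < q)).card ≤ 17 * Ex := by
  by_contra hcon
  push Not at hcon
  set U := n.primeFactors.filter (fun q => s < q) with hU
  have h1 : (s + 1) ^ U.card ≤ ∏ q ∈ U, q :=
    pow_card_le_prod U (fun q => q) (s + 1) (fun q hq => (mem_filter.1 hq).2)
  have h2 : ∏ q ∈ U, q ≤ n := by
    refine Nat.le_of_dvd (Nat.pos_of_ne_zero hn) ?_
    refine dvd_trans ?_ (Nat.prod_primeFactors_dvd n)
    exact prod_dvd_prod_of_subset _ _ _ (filter_subset _ _)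
  have h5 : ℓ ≤ (s + 1) ^ 17 := by
    calc ℓ ≤ (2 * s) ^ 16 := h3.le
      _ = 2 ^ 16 * s ^ 16 := by ring
      _ ≤ s * s ^ 16 := Nat.mul_le_mul_right _ h4
      _ = s ^ 17 := by ring
      _ ≤ (s + 1) ^ 17 := Nat.pow_le_pow_left (Nat.le_succ s) 17
  have h6 : (s + 1) ^ U.card ≤ (s + 1) ^ (17 * Ex) := by
    calc _ ≤ ℓ ^ Ex := h1.trans (h2.trans hX)
      _ ≤ ((s + 1) ^ 17) ^ Ex := Nat.pow_le_pow_left h5 Ex
      _ = _ := by rw [← pow_mul]
  have h7 := (Nat.pow_le_pow_iff_right (show 1 < s + 1 by omega)).1 h6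
  omega

/-- the fundamental lemma with a uniform bound for the remainders -/
lemma fl_bound {B1 κ : ℕ} (hFL : S_FL B1) (hκ : 1 ≤ κ) (z : ℕ) (hz : 2 ≤ z) (g : ℕ → ℝ)
    (hg : ∀ p ∈ pz z, 0 ≤ g p ∧ g p ≤ 1 / 2 ∧ g p ≤ ((2 * κ : ℕ) : ℝ) / (p : ℝ))
    {Ω : Type} (S : Finset Ω) (N : Ω → ℕ) (X M : ℝ) (hX : 0 ≤ X) (hM : 0 ≤ M)
    (hr : ∀ U ⊆ pz z, ∏ p ∈ U, p ≤ z ^ (B1 * (2 * κ)) →
      |((S.filter (fun ω => ∀ p ∈ U, p ∣ N ω)).card : ℝ) - X * ∏ p ∈ U, g p| ≤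
        (z : ℝ) ^ (4 * κ * B1) * M) :
    |((S.filter (fun ω => ∀ p ∈ pz z, ¬ p ∣ N ω)).card : ℝ) - X * ∏ p ∈ pz z, (1 - g p)| ≤
      1 / 4 * (X * ∏ p ∈ pz z, (1 - g p)) +
        ((Nat.log 2 z : ℝ) + 2) * ((z : ℝ) ^ (6 * κ * B1) * M) := by
  refine (hFL (2 * κ) (by omega) z hz (pz z) (fun p hp => ⟨(mem_pz.1 hp).2, (mem_pz.1 hp).1⟩) g
    hg S N X hX).trans ?_
  refine add_le_add le_rfl (mul_le_mul_of_nonneg_left ?_ (by positivity))
  calc _ ≤ ∑ U ∈ (pz z).powerset.filter (fun U => ∏ p ∈ U, p ≤ z ^ (B1 * (2 * κ))),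
        ((z : ℝ) ^ (4 * κ * B1) * M) := by
        refine sum_le_sum fun U hU => ?_
        rw [mem_filter, mem_powerset] at hU
        exact hr U hU.1 hU.2
    _ = (((pz z).powerset.filter (fun U => ∏ p ∈ U, p ≤ z ^ (B1 * (2 * κ)))).card : ℝ) *
        ((z : ℝ) ^ (4 * κ * B1) * M) := by rw [sum_const, nsmul_eq_mul]
    _ ≤ (z : ℝ) ^ (B1 * (2 * κ)) * ((z : ℝ) ^ (4 * κ * B1) * M) := by
        apply mul_le_mul_of_nonneg_right _ (by positivity)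
        have := card_lev (pz z) (fun p hp => (mem_pz.1 hp).2) (z ^ (B1 * (2 * κ)))
        exact_mod_cast this
    _ = _ := by
        rw [← mul_assoc, ← pow_add]
        congr 2
        ring

section

variable {ℓ : ℕ} {c : (ZMod ℓ)ˣ} {κ Ex : ℕ} {ι : Type} [Fintype ι]
  {V : ι → (ZMod ℓ)ˣ → ℕ} {Ω : ι → (p : ℕ) → Finset (ZMod p × ZMod p)}

lemma dvd_iff (hS : Sys ℓ c κ Ex ι V Ω) {p : ℕ} (hp : p.Prime) (hpl : p < ℓ) (x : (ZMod ℓ)ˣ) :
    p ∣ ∏ i, V i x ↔ ((bv x : ZMod p), (vv c x : ZMod p)) ∈ OU Ω p := by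
  unfold OU
  rw [mem_biUnion, Prime.dvd_finsetProd_iff hp.prime]
  constructor
  · rintro ⟨i, hi, h⟩
    exact ⟨i, hi, (hS.iff i p hp hpl x).1 h⟩
  · rintro ⟨i, hi, h⟩
    exact ⟨i, hi, (hS.iff i p hp hpl x).2 h⟩

lemma card_OU_le (hS : Sys ℓ c κ Ex ι V Ω) {p : ℕ} (hp : p.Prime) :
    (OU Ω p).card ≤ 2 * κ * p := by
  unfold OU
  refine card_biUnion_le.trans ((sum_le_sum fun i _ => hS.two i p hp).trans ?_)
  rw [sum_const, card_univ, hS.card, smul_eq_mul]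
  exact le_of_eq (by ring)

lemma card_OU_sq {p : ℕ} (hp : p.Prime) : (OU Ω p).card ≤ p ^ 2 := by
  have : NeZero p := ⟨hp.ne_zero⟩
  refine (card_le_univ _).trans ?_
  rw [Fintype.card_prod, ZMod.card]
  exact le_of_eq (by ring)

lemma g_bound (hS : Sys ℓ c κ Ex ι V Ω) {p : ℕ} (hp : p.Prime) :
    0 ≤ ((OU Ω p).card : ℝ) / (p : ℝ) ^ 2 ∧ ((OU Ω p).card : ℝ) / (p : ℝ) ^ 2 ≤ 1 / 2 ∧
      ((OU Ω p).card : ℝ) / (p : ℝ) ^ 2 ≤ ((2 * κ : ℕ) : ℝ) / (p : ℝ) := by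
  have hp0 : (0 : ℝ) < p := by exact_mod_cast hp.pos
  have h1 : ((OU Ω p).card : ℝ) / (p : ℝ) ^ 2 ≤ ((2 * κ : ℕ) : ℝ) / (p : ℝ) := by
    rw [div_le_div_iff₀ (by positivity) hp0]
    have h2 : ((OU Ω p).card : ℝ) ≤ ((2 * κ * p : ℕ) : ℝ) := by exact_mod_cast card_OU_le hS hp
    push_cast at h2 ⊢
    nlinarith
  refine ⟨by positivity, ?_, h1⟩
  rcases le_or_gt p (4 * κ) with h | h
  · have h3 : OU Ω p = ∅ := by
      rw [eq_empty_iff_forall_notMem]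
      intro y hy
      obtain ⟨i, -, hi⟩ := mem_biUnion.1 hy
      rw [hS.small i p hp h] at hi
      exact notMem_empty _ hi
    rw [h3, card_empty, Nat.cast_zero, zero_div]
    norm_num
  · refine h1.trans ?_
    rw [div_le_div_iff₀ hp0 (by norm_num)]
    have h4 : (4 : ℝ) * κ < p := by exact_mod_cast h
    push_cast
    linarith

lemma prod_sq_le {z B1 : ℕ} {U : Finset ℕ} (hU : ∏ p ∈ U, p ≤ z ^ (B1 * (2 * κ)))
    (hUp : ∀ p ∈ U, p.Prime) :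
    ∏ p ∈ U, ((OU Ω p).card : ℝ) ≤ (z : ℝ) ^ (4 * κ * B1) := by
  have h1 : ∏ p ∈ U, (OU Ω p).card ≤ ∏ p ∈ U, p ^ 2 :=
    prod_le_prod' fun p hp => card_OU_sq (hUp p hp)
  have h2 : ∏ p ∈ U, p ^ 2 ≤ z ^ (4 * κ * B1) := by
    rw [prod_pow]
    calc (∏ p ∈ U, p) ^ 2 ≤ (z ^ (B1 * (2 * κ))) ^ 2 := Nat.pow_le_pow_left hU 2
      _ = _ := by
        rw [← pow_mul]
        congr 1
        ring
  exact_mod_cast h1.trans h2

variable [Fact ℓ.Prime]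

/-- the remainders of the first sieve -/
lemma rem1 (hcnt : S_cnt) (hS : Sys ℓ c κ Ex ι V Ω) {z B1 s : ℕ} (h6 : z ^ (B1 * (2 * κ)) ≤ s)
    (hzs : z ≤ s) (hsl : s < ℓ) (U : Finset ℕ) (hUz : U ⊆ pz z)
    (hU : ∏ p ∈ U, p ≤ z ^ (B1 * (2 * κ))) :
    |(((univ : Finset (ZMod ℓ)ˣ).filter (fun x => ∀ p ∈ U, p ∣ ∏ i, V i x)).card : ℝ) -
        ℓ * ∏ p ∈ U, (((OU Ω p).card : ℝ) / (p : ℝ) ^ 2)| ≤
      (z : ℝ) ^ (4 * κ * B1) * (8 * Real.sqrt ℓ * (1 + Real.log ℓ) ^ 2) := by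
  have hUp : ∀ p ∈ U, p.Prime := fun p hp => (mem_pz.1 (hUz hp)).2
  have h1 := hcnt ℓ c U hUp (by omega) (OU Ω)
  have h2 : (univ : Finset (ZMod ℓ)ˣ).filter (fun x => ∀ p ∈ U, p ∣ ∏ i, V i x) =
      (univ : Finset (ZMod ℓ)ˣ).filter (fun x : (ZMod ℓ)ˣ =>
        ∀ p ∈ U, ((bv x : ZMod p), (vv c x : ZMod p)) ∈ OU Ω p) := by
    apply filter_congr
    intro x _
    refine forall₂_congr fun p hp => dvd_iff hS (hUp p hp) ?_ x
    have := (mem_pz.1 (hUz hp)).1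
    omega
  rw [h2]
  refine h1.trans (mul_le_mul_of_nonneg_right (prod_sq_le hU hUp) (by positivity))

/-- the remainders of the second sieve -/
lemma rem2 (hcnt : S_cnt) (hS : Sys ℓ c κ Ex ι V Ω) {z B1 s : ℕ} (h6 : z ^ (B1 * (2 * κ)) ≤ s)
    (hzs : z ≤ s) (hsl : s * s < ℓ) (hs1 : 1 ≤ s) (i : ι) {q : ℕ} (hq : q.Prime) (hzq : z < q)
    (hqs : q ≤ s) (U : Finset ℕ) (hUz : U ⊆ pz z) (hU : ∏ p ∈ U, p ≤ z ^ (B1 * (2 * κ))) :
    |((((univ : Finset (ZMod ℓ)ˣ).filter (fun x => q ∣ V i x)).filter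
        (fun x => ∀ p ∈ U, p ∣ ∏ i, V i x)).card : ℝ) -
        (ℓ * (((Ω i q).card : ℝ) / (q : ℝ) ^ 2)) *
          ∏ p ∈ U, (((OU Ω p).card : ℝ) / (p : ℝ) ^ 2)| ≤
      (z : ℝ) ^ (4 * κ * B1) * (2 * q * (8 * Real.sqrt ℓ * (1 + Real.log ℓ) ^ 2)) := by
  have hUp : ∀ p ∈ U, p.Prime := fun p hp => (mem_pz.1 (hUz hp)).2
  have hqU : q ∉ U := fun h => by
    have := (mem_pz.1 (hUz h)).1
    omega
  have hsl' : s < ℓ := by nlinarith
  let Ω' : (p : ℕ) → Finset (ZMod p × ZMod p) := fun p => if p = q then Ω i p else OU Ω p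
  have hq' : Ω' q = Ω i q := if_pos rfl
  have hp' : ∀ p ∈ U, Ω' p = OU Ω p := fun p hp => if_neg (by rintro rfl; exact hqU hp)
  have h0 : ∏ p ∈ insert q U, p < ℓ := by
    rw [prod_insert hqU]
    calc q * ∏ p ∈ U, p ≤ s * s := Nat.mul_le_mul hqs (hU.trans h6)
      _ < ℓ := hsl
  have h1 := hcnt ℓ c (insert q U) (by
    intro p hp
    rcases mem_insert.1 hp with rfl | h
    · exact hq
    · exact hUp p h) h0 Ω'
  have h2 : ((univ : Finset (ZMod ℓ)ˣ).filter (fun x => q ∣ V i x)).filter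
        (fun x => ∀ p ∈ U, p ∣ ∏ i, V i x) =
      (univ : Finset (ZMod ℓ)ˣ).filter (fun x : (ZMod ℓ)ˣ =>
        ∀ p ∈ insert q U, ((bv x : ZMod p), (vv c x : ZMod p)) ∈ Ω' p) := by
    ext x
    rw [mem_filter, mem_filter, mem_filter, forall_mem_insert, hq',
      hS.iff i q hq (by omega) x]
    have h3 : (∀ p ∈ U, p ∣ ∏ i, V i x) ↔
        ∀ p ∈ U, ((bv x : ZMod p), (vv c x : ZMod p)) ∈ Ω' p := by
      refine forall₂_congr fun p hp => ?_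
      rw [hp' p hp]
      refine dvd_iff hS (hUp p hp) ?_ x
      have := (mem_pz.1 (hUz hp)).1
      omega
    rw [h3, and_assoc]
  have h3 : ∏ p ∈ insert q U, (((Ω' p).card : ℝ) / (p : ℝ) ^ 2) =
      (((Ω i q).card : ℝ) / (q : ℝ) ^ 2) * ∏ p ∈ U, (((OU Ω p).card : ℝ) / (p : ℝ) ^ 2) := by
    rw [prod_insert hqU, hq']
    congr 1
    exact prod_congr rfl fun p hp => by rw [hp' p hp]
  have h4 : ∏ p ∈ insert q U, ((Ω' p).card : ℝ) ≤ (2 * q) * (z : ℝ) ^ (4 * κ * B1) := by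
    have h5 : ∏ p ∈ U, ((Ω' p).card : ℝ) = ∏ p ∈ U, ((OU Ω p).card : ℝ) :=
      prod_congr rfl fun p hp => by rw [hp' p hp]
    rw [prod_insert hqU, hq', h5]
    have h6 : ((Ω i q).card : ℝ) ≤ 2 * q := by exact_mod_cast hS.two i q hq
    exact mul_le_mul h6 (prod_sq_le hU hUp) (prod_nonneg fun _ _ => Nat.cast_nonneg _)
      ((Nat.cast_nonneg _).trans h6)
  have hE : 0 ≤ 8 * Real.sqrt ℓ * (1 + Real.log ℓ) ^ 2 := by positivity
  rw [h3] at h1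
  rw [h2, mul_assoc]
  refine h1.trans ((mul_le_mul_of_nonneg_right h4 hE).trans (le_of_eq ?_))
  ring

end

set_option maxHeartbeats 2000000 in
open Classical in
/-- the sieve, quantitative core -/
theorem t_core (hcnt : S_cnt) (B1 L : ℕ) (hFL : S_FL B1) (hrec : S_rec L)
    (Ex κ ℓ J n s R1 : ℕ) [Fact ℓ.Prime] (c : (ZMod ℓ)ˣ) (ι : Type) [Fintype ι]
    (V : ι → (ZMod ℓ)ˣ → ℕ) (Ω : ι → (p : ℕ) → Finset (ZMod p × ZMod p))
    (hS : Sys ℓ c κ Ex ι V Ω) (h1 : 2 ^ 2 ^ J ≤ s) (h2 : s ^ 16 ≤ ℓ) (h3 : ℓ < (2 * s) ^ 16)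
    (h4 : 2 ^ 16 ≤ s) (h5 : ℓ < 2 ^ 2 ^ (J + n)) (h6 : (2 ^ 2 ^ J) ^ (2 * κ * B1) ≤ s)
    (h7 : 64 * (s : ℝ) ^ 2 * Del ℓ (2 ^ 2 ^ J) κ B1 ≤ Wd Ω ℓ (2 ^ 2 ^ J))
    (h8 : 10 * (L * n) + 88 * Ex + 1 ≤ R1) :
    Wd Ω ℓ (2 ^ 2 ^ J) / 8 ≤
      (((univ : Finset (ZMod ℓ)ˣ).filter (fun x => ∑ i, (V i x).primeFactors.card ≤ κ * R1 ∧
        ∀ i, ∀ p : ℕ, p.Prime → p ∣ V i x → 2 ^ 2 ^ J < p)).card : ℝ) := by
  obtain ⟨z, hz⟩ : ∃ z : ℕ, z = 2 ^ 2 ^ J := ⟨_, rfl⟩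
  rw [← hz] at h1 h6 h7 ⊢
  have hz2 : 2 ≤ z := by
    rw [hz]
    calc 2 = 2 ^ 1 := by norm_num
      _ ≤ 2 ^ 2 ^ J := Nat.pow_le_pow_right (by norm_num) Nat.one_le_two_pow
  have hκ := hS.pos
  have hκr : (1 : ℝ) ≤ κ := by exact_mod_cast hκ
  have hs1 : 1 ≤ s := le_trans Nat.one_le_two_pow h4
  have hs2 : 2 ≤ s := hz2.trans h1
  have hssl : s * s < ℓ := by
    refine lt_of_lt_of_le ?_ h2
    calc s * s = s ^ 2 := by ring
      _ < s ^ 16 := Nat.pow_lt_pow_right (by omega) (by norm_num)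
  have hsl : s < ℓ := by nlinarith
  have h6' : z ^ (B1 * (2 * κ)) ≤ s := by
    rw [mul_comm]
    exact h6
  obtain ⟨E0, hE0⟩ : ∃ E0 : ℝ, E0 = 8 * Real.sqrt ℓ * (1 + Real.log ℓ) ^ 2 := ⟨_, rfl⟩
  have hE00 : 0 ≤ E0 := by rw [hE0]; positivity
  obtain ⟨W, hW⟩ : ∃ W : ℝ, W = Wd Ω ℓ z := ⟨_, rfl⟩
  obtain ⟨D, hD⟩ : ∃ D : ℝ, D = Del ℓ z κ B1 := ⟨_, rfl⟩
  have hD' : D = 2 * (((Nat.log 2 z : ℝ) + 2) * ((z : ℝ) ^ (6 * κ * B1) * E0)) := by
    rw [hD, Del, ← hE0]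
    ring
  have hD0 : 0 ≤ D := by rw [hD']; positivity
  rw [← hW, ← hD] at h7
  rw [← hW]
  have hsr : (1 : ℝ) ≤ s := by exact_mod_cast hs1
  have hs2D : 0 ≤ (s : ℝ) ^ 2 * D := by positivity
  have hW0 : 0 ≤ W := by linarith
  have hDW : D ≤ W / 64 := by
    have : 1 * D ≤ (s : ℝ) ^ 2 * D := by
      apply mul_le_mul_of_nonneg_right _ hD0
      nlinarith
    linarith
  have hsDW : (s : ℝ) ^ 2 * D ≤ W / 64 := by linarith
  -- the first sieve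
  set S := (univ : Finset (ZMod ℓ)ˣ).filter (fun x => ∀ p ∈ pz z, ¬ p ∣ ∏ i, V i x) with hSd
  have hSc := fl_bound hFL hκ z hz2 (fun p => ((OU Ω p).card : ℝ) / (p : ℝ) ^ 2)
    (fun p hp => g_bound hS (mem_pz.1 hp).2) (univ : Finset (ZMod ℓ)ˣ) (fun x => ∏ i, V i x)
    (ℓ : ℝ) E0 (Nat.cast_nonneg _) hE00 (fun U hUz hU => by
      rw [hE0]
      exact rem1 hcnt hS h6' h1 hsl U hUz hU)
  have hWd : (ℓ : ℝ) * ∏ p ∈ pz z, (1 - ((OU Ω p).card : ℝ) / (p : ℝ) ^ 2) = W := by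
    rw [hW, Wd]
  rw [hWd] at hSc
  have hSc' : |(S.card : ℝ) - W| ≤ 1 / 4 * W + D / 2 := by
    refine le_trans (le_of_eq ?_) (hSc.trans (le_of_eq ?_))
    · rw [hSd]
    · rw [hD']; ring
  have hS1 : (S.card : ℝ) ≤ 5 / 4 * W + W / 64 := by
    have := (abs_le.1 hSc').2
    linarith
  have hS2 : 3 / 4 * W - W / 64 ≤ (S.card : ℝ) := by
    have := (abs_le.1 hSc').1
    linarith
  have hrough : ∀ x ∈ S, ∀ i, ∀ p : ℕ, p.Prime → p ∣ V i x → z < p := by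
    intro x hx i p hp hpd
    by_contra hcon
    push Not at hcon
    exact (mem_filter.1 hx).2 p (mem_pz.2 ⟨hcon, hp⟩)
      (hpd.trans (dvd_prod_of_mem (fun i => V i x) (mem_univ i)))
  -- the prime factors
  set Pq := (Ioc z s).filter Nat.Prime with hPq
  have hPq' : ∀ q ∈ Pq, q.Prime ∧ z < q ∧ q ≤ s := by
    intro q hq
    rw [hPq, mem_filter, mem_Ioc] at hq
    exact ⟨hq.2, hq.1.1, hq.1.2⟩
  have hrec' : ∑ q ∈ Pq, (1 : ℝ) / q ≤ L * n := by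
    apply hrec J n
    intro q hq
    obtain ⟨g1, g2, g3⟩ := hPq' q hq
    refine ⟨g1, by rw [← hz]; exact g2, lt_of_le_of_lt (g3.trans hsl.le) h5⟩
  have hω : ∀ x ∈ S, ∀ i, (V i x).primeFactors.card ≤
      (Pq.filter (fun q => q ∣ V i x)).card + 17 * Ex := by
    intro x hx i
    obtain ⟨hne, hle⟩ := hS.size i x
    have g1 := card_filter_add_card_filter_not (s := (V i x).primeFactors) (fun q => s < q)
    have g3 := few_large (n := V i x) (by omega) hle h3 h4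
    have g4 : ((V i x).primeFactors.filter (fun q => ¬ s < q)).card ≤
        (Pq.filter (fun q => q ∣ V i x)).card := by
      apply card_le_card
      intro q hq
      rw [mem_filter, Nat.mem_primeFactors] at hq
      rw [mem_filter, hPq, mem_filter, mem_Ioc]
      exact ⟨⟨⟨hrough x hx i q hq.1.1 hq.1.2.1, by omega⟩, hq.1.1⟩, hq.1.2.1⟩
    omega
  have hqcount : ∀ i, ∀ q ∈ Pq, ((S.filter (fun x => q ∣ V i x)).card : ℝ) ≤
      5 / 2 * W * (1 / q) + s * D := by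
    intro i q hq
    obtain ⟨hqp, hzq, hqs⟩ := hPq' q hq
    have hqr : (0 : ℝ) < q := by exact_mod_cast hqp.pos
    have g1 : S.filter (fun x => q ∣ V i x) =
        ((univ : Finset (ZMod ℓ)ˣ).filter (fun x => q ∣ V i x)).filter
          (fun x => ∀ p ∈ pz z, ¬ p ∣ ∏ i, V i x) := by
      rw [hSd, filter_filter, filter_filter]
      exact filter_congr fun x _ => and_comm
    have g2 := fl_bound hFL hκ z hz2 (fun p => ((OU Ω p).card : ℝ) / (p : ℝ) ^ 2)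
      (fun p hp => g_bound hS (mem_pz.1 hp).2)
      ((univ : Finset (ZMod ℓ)ˣ).filter (fun x => q ∣ V i x)) (fun x => ∏ i, V i x)
      (ℓ * (((Ω i q).card : ℝ) / (q : ℝ) ^ 2)) (2 * q * E0) (by positivity) (by positivity)
      (fun U hUz hU => by
        rw [hE0]
        exact rem2 hcnt hS h6' h1 hssl hs1 i hqp hzq hqs U hUz hU)
    have g3 : (ℓ * (((Ω i q).card : ℝ) / (q : ℝ) ^ 2)) *
        ∏ p ∈ pz z, (1 - ((OU Ω p).card : ℝ) / (p : ℝ) ^ 2) =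
        W * (((Ω i q).card : ℝ) / (q : ℝ) ^ 2) := by
      rw [← hWd]
      ring
    rw [g3] at g2
    have g4 := (abs_le.1 g2).2
    have g5 : ((Ω i q).card : ℝ) / (q : ℝ) ^ 2 ≤ 2 * (1 / q) := by
      rw [mul_one_div, div_le_div_iff₀ (by positivity) hqr]
      have : ((Ω i q).card : ℝ) ≤ 2 * q := by exact_mod_cast hS.two i q hqp
      nlinarith
    have g6 : W * (((Ω i q).card : ℝ) / (q : ℝ) ^ 2) ≤ W * (2 * (1 / q)) :=
      mul_le_mul_of_nonneg_left g5 hW0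
    have g7 : ((Nat.log 2 z : ℝ) + 2) * ((z : ℝ) ^ (6 * κ * B1) * (2 * q * E0)) = q * D := by
      rw [hD']; ring
    have g8 : (q : ℝ) * D ≤ s * D :=
      mul_le_mul_of_nonneg_right (by exact_mod_cast hqs) hD0
    rw [g7] at g4
    rw [g1]
    have g9 : ((((univ : Finset (ZMod ℓ)ˣ).filter (fun x => q ∣ V i x)).filter
          (fun x => ∀ p ∈ pz z, ¬ p ∣ ∏ i, V i x)).card : ℝ) ≤
        W * (((Ω i q).card : ℝ) / (q : ℝ) ^ 2) +
          (1 / 4 * (W * (((Ω i q).card : ℝ) / (q : ℝ) ^ 2)) + q * D) := by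
      linarith
    linarith
  have hPqc : (Pq.card : ℝ) ≤ s := by
    have : Pq.card ≤ s := (card_filter_le _ _).trans (by rw [Nat.card_Ioc]; omega)
    exact_mod_cast this
  have hR1r : 10 * ((L : ℝ) * n) + 88 * Ex + 1 ≤ R1 := by exact_mod_cast h8
  have hExr : (0 : ℝ) ≤ (Ex : ℝ) := Nat.cast_nonneg _
  have hLn : (0 : ℝ) ≤ (L : ℝ) * n := by positivity
  have hsum : (∑ x ∈ S, ∑ i, ((V i x).primeFactors.card : ℝ)) ≤
      κ * (5 / 2 * W * (L * n) + (s : ℝ) ^ 2 * D) + 17 * Ex * κ * S.card := by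
    calc (∑ x ∈ S, ∑ i, ((V i x).primeFactors.card : ℝ))
        ≤ ∑ x ∈ S, ∑ i, (((Pq.filter (fun q => q ∣ V i x)).card : ℝ) + 17 * Ex) := by
          refine sum_le_sum fun x hx => sum_le_sum fun i _ => ?_
          exact_mod_cast hω x hx i
      _ = (∑ i, ∑ q ∈ Pq, ((S.filter (fun x => q ∣ V i x)).card : ℝ)) +
          17 * Ex * κ * S.card := by
          simp only [sum_add_distrib, sum_const, nsmul_eq_mul]
          congr 1
          · rw [sum_comm]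
            refine sum_congr rfl fun i _ => ?_
            simp only [card_filter, Nat.cast_sum]
            rw [sum_comm]
          · rw [card_univ, hS.card]; ring
      _ ≤ (∑ _i : ι, (5 / 2 * W * (L * n) + (s : ℝ) ^ 2 * D)) + 17 * Ex * κ * S.card := by
          refine add_le_add (sum_le_sum fun i _ => ?_) le_rfl
          calc ∑ q ∈ Pq, ((S.filter (fun x => q ∣ V i x)).card : ℝ)
              ≤ ∑ q ∈ Pq, (5 / 2 * W * (1 / q) + s * D) :=
                sum_le_sum fun q hq => hqcount i q hq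
            _ = 5 / 2 * W * ∑ q ∈ Pq, (1 : ℝ) / q + Pq.card * (s * D) := by
                rw [sum_add_distrib, sum_const, nsmul_eq_mul, mul_sum]
            _ ≤ 5 / 2 * W * (L * n) + s * (s * D) := by
                refine add_le_add (mul_le_mul_of_nonneg_left hrec' (by positivity))
                  (mul_le_mul_of_nonneg_right hPqc (by positivity))
            _ ≤ _ := le_of_eq (by ring)
      _ = _ := by
          rw [sum_const, nsmul_eq_mul, card_univ, hS.card]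
  -- the bad arguments
  have hbad : ((S.filter (fun x => ¬ ∑ i, (V i x).primeFactors.card ≤ κ * R1)).card : ℝ) *
      (κ * R1) ≤ κ * (5 / 2 * W * (L * n) + (s : ℝ) ^ 2 * D) + 17 * Ex * κ * S.card := by
    refine le_trans ?_ hsum
    calc ((S.filter (fun x => ¬ ∑ i, (V i x).primeFactors.card ≤ κ * R1)).card : ℝ) *
        (κ * R1) = ∑ _x ∈ S.filter (fun x => ¬ ∑ i, (V i x).primeFactors.card ≤ κ * R1),
          ((κ : ℝ) * R1) := by rw [sum_const, nsmul_eq_mul]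
      _ ≤ ∑ x ∈ S.filter (fun x => ¬ ∑ i, (V i x).primeFactors.card ≤ κ * R1),
          ∑ i, ((V i x).primeFactors.card : ℝ) := by
          refine sum_le_sum fun x hx => ?_
          have g1 := (mem_filter.1 hx).2
          have g2 : κ * R1 ≤ ∑ i, (V i x).primeFactors.card := by omega
          exact_mod_cast g2
      _ ≤ _ := by
          apply sum_le_sum_of_subset_of_nonneg (filter_subset _ _)
          intro _ _ _
          exact sum_nonneg fun _ _ => Nat.cast_nonneg _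
  obtain ⟨bd, hbdd⟩ : ∃ bd : ℝ, bd =
    ((S.filter (fun x => ¬ ∑ i, (V i x).primeFactors.card ≤ κ * R1)).card : ℝ) := ⟨_, rfl⟩
  rw [← hbdd] at hbad
  have hR0 : (0 : ℝ) < R1 := by
    have : (0 : ℝ) ≤ 88 * (Ex : ℝ) := by positivity
    linarith
  have hbW : bd ≤ W / 4 := by
    have g1 : bd * R1 ≤ 5 / 2 * W * (L * n) + (s : ℝ) ^ 2 * D + 17 * Ex * S.card := by
      have g2 : κ * (bd * R1) ≤
          κ * (5 / 2 * W * (L * n) + (s : ℝ) ^ 2 * D + 17 * Ex * S.card) := by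
        linarith
      exact le_of_mul_le_mul_left g2 (by linarith)
    have g5 : bd * R1 ≤ W / 4 * R1 := by
      have g6 : W / 4 * (10 * (L * n) + 88 * Ex + 1) ≤ W / 4 * R1 :=
        mul_le_mul_of_nonneg_left hR1r (by linarith)
      have g8 : 17 * (Ex : ℝ) * S.card ≤ 17 * Ex * (5 / 4 * W + W / 64) :=
        mul_le_mul_of_nonneg_left hS1 (by positivity)
      have g9 : 0 ≤ (Ex : ℝ) * W := mul_nonneg hExr hW0
      have g10 : W / 4 * (10 * ((L : ℝ) * n) + 88 * Ex + 1) =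
          5 / 2 * W * (L * n) + 22 * (Ex * W) + W / 4 := by ring
      have g11 : 17 * (Ex : ℝ) * (5 / 4 * W + W / 64) = (17 * (5 / 4 + 1 / 64)) * (Ex * W) := by
        ring
      rw [g11] at g8
      rw [g10] at g6
      linarith
    exact le_of_mul_le_mul_right g5 hR0
  set G1 := S.filter (fun x => ∑ i, (V i x).primeFactors.card ≤ κ * R1) with hG1
  have hcard : (S.card : ℝ) ≤ G1.card + W / 4 := by
    have g1 := card_filter_add_card_filter_not (s := S)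
      (fun x => ∑ i, (V i x).primeFactors.card ≤ κ * R1)
    have g2 : (S.card : ℝ) = G1.card + bd := by
      rw [hbdd, hG1]
      exact_mod_cast g1.symm
    linarith
  have hsubf : G1 ⊆
      (univ : Finset (ZMod ℓ)ˣ).filter (fun x => ∑ i, (V i x).primeFactors.card ≤ κ * R1 ∧
        ∀ i, ∀ p : ℕ, p.Prime → p ∣ V i x → z < p) := by
    intro x hx
    rw [hG1, mem_filter] at hx
    rw [mem_filter]
    exact ⟨mem_univ _, hx.2, fun i p hp hpd => hrough x hx.1 i p hp hpd⟩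
  have hfin2 : (G1.card : ℝ) ≤
      (((univ : Finset (ZMod ℓ)ˣ).filter (fun x => ∑ i, (V i x).primeFactors.card ≤ κ * R1 ∧
        ∀ i, ∀ p : ℕ, p.Prime → p ∣ V i x → z < p)).card : ℝ) := by
    exact_mod_cast card_le_card hsubf
  refine le_trans ?_ hfin2
  linarith

end Pool.Agent.Y394.T2
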